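import Pool.Agent.Helper44_Art.Stmt4

set_option autoImplicit false

/-!
# Squad ART, module SEMI: semidirect products
-/

namespace Art.H63

/-- Homomorphisms from a finitely generated group to a finite group are finite in number. -/
theorem finite_hom {K P : Type} [Group K] [Group P] [Finite P] (h : Group.FG K) :
    Finite (K →* P) := by
  obtain ⟨S, hS, hfin⟩ := Group.fg_iff.1 h
  have : Finite S := hfin
  refine Finite.of_injective (fun f : K →* P => fun s : S => f s) ?_
  intro f g hfg
  apply MonoidHom.eq_of_eqOn_dense hS
  intro s hs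
  exact congrFun hfg ⟨s, hs⟩

/-- **SEMI** -/
theorem semi : SemiStmt := by
  intro K Q _ _ φ hK hRK hRQ
  rw [RF, Group.residuallyFinite_iff_exists_finiteIndex]
  intro g hg
  by_cases hq : g.right = 1
  · have hk : g.left ≠ 1 := by
      intro hk
      apply hg
      ext
      · exact hk
      · exact hq
    obtain ⟨N, hN1, hN2⟩ := Group.residuallyFinite_iff_exists_finiteIndex.mp hRK g.left hk
    have hfinP : Finite (Equiv.Perm (K ⧸ N)) := inferInstance
    have hfinH : Finite (K →* Equiv.Perm (K ⧸ N)) := finite_hom hK
    set C : Subgroup K := ⨅ f : K →* Equiv.Perm (K ⧸ N), f.ker with hC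
    have hCfin : C.FiniteIndex :=
      Subgroup.finiteIndex_iInf (fun f => Subgroup.finiteIndex_ker f)
    have hinv : ∀ (ψ : MulAut K) (x : K), x ∈ C → ψ x ∈ C := by
      intro ψ x hx
      rw [hC, Subgroup.mem_iInf] at hx ⊢
      intro f
      have := hx (f.comp ψ.toMonoidHom)
      rw [MonoidHom.mem_ker] at this ⊢
      exact this
    have hkC : g.left ∉ C := by
      intro hx
      apply hN2
      rw [hC, Subgroup.mem_iInf] at hx
      have h1 := hx (MulAction.toPermHom K (K ⧸ N))
      rw [MonoidHom.mem_ker] at h1
      have h2 : g.left • ((1 : K) : K ⧸ N) = ((1 : K) : K ⧸ N) :=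
        congrFun (congrArg DFunLike.coe h1) ((1 : K) : K ⧸ N)
      have h3 : ((g.left * 1 : K) : K ⧸ N) = ((1 : K) : K ⧸ N) := h2
      rw [mul_one, eq_comm, QuotientGroup.eq] at h3
      simpa using h3
    let H : Subgroup (K ⋊[φ] Q) :=
      { carrier := {x | x.left ∈ C}
        one_mem' := C.one_mem
        mul_mem' := by
          intro a b ha hb
          change (a * b).left ∈ C
          rw [SemidirectProduct.mul_left]
          exact C.mul_mem ha (hinv _ _ hb)
        inv_mem' := by
          intro a ha
          change (a⁻¹).left ∈ C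
          rw [SemidirectProduct.inv_left]
          exact hinv _ _ (C.inv_mem ha) }
    refine ⟨H, ?_, hkC⟩
    have hfq : Finite (K ⧸ C) := inferInstance
    have hmem : ∀ x y : K ⋊[φ] Q, x⁻¹ * y ∈ H ↔ (x.left)⁻¹ * y.left ∈ C := by
      intro x y
      change (x⁻¹ * y).left ∈ C ↔ _
      rw [SemidirectProduct.mul_left, SemidirectProduct.inv_left, SemidirectProduct.inv_right,
        ← map_mul]
      constructor
      · intro h
        have := hinv (φ x.right) _ h
        rw [← MulAut.mul_apply, ← map_mul, mul_inv_cancel, map_one] at this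
        exact this
      · intro h
        exact hinv _ _ h
    have hfinq : Finite ((K ⋊[φ] Q) ⧸ H) := by
      refine Finite.of_injective (fun c : (K ⋊[φ] Q) ⧸ H =>
        Quotient.liftOn' c (fun x => ((x.left : K) : K ⧸ C)) ?_) ?_
      · intro x y hxy
        rw [QuotientGroup.leftRel_apply] at hxy
        exact QuotientGroup.eq.2 ((hmem x y).1 hxy)
      · intro c d
        refine Quotient.inductionOn₂' c d ?_
        intro x y hxy
        have h1 : ((x.left : K) : K ⧸ C) = ((y.left : K) : K ⧸ C) := hxy
        exact QuotientGroup.eq.2 ((hmem x y).2 (QuotientGroup.eq.1 h1))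
    exact Subgroup.finiteIndex_of_finite_quotient
  · obtain ⟨N, hN1, hN2⟩ := Group.residuallyFinite_iff_exists_finiteIndex.mp hRQ g.right hq
    refine ⟨N.comap SemidirectProduct.rightHom, ?_, hN2⟩
    constructor
    rw [Subgroup.index_comap]
    exact fun h0 => hN1.index_ne_zero (Subgroup.index_eq_zero_of_relIndex_eq_zero h0)

end Art.H63
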