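import Pool.Agent.Helper44_Art.Stmt2

set_option autoImplicit false

/-!
# AM2: the amalgam theorem (local dihedral type)
-/

namespace Art.H63

theorem am2 (hGlue : GlueStmt) (hVR2 : VR2Stmt) : Am2Stmt := by
  intro S _ M S1 S2 hU hX hD hG hR1 hR2
  exact hGlue M S1 S2 hU hX (fun Φ hΦ => hVR2 M (S1 ∩ S2) hD hG Φ hΦ) hR1 hR2

end Art.H63
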